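import Pool.Agent.Helper46.RobinG

open MeasureTheory Set Filter Topology
open scoped ENNReal NNReal ContDiff
open Pool.Agent.Helper46.Robin

namespace Pool.Agent.Results.MP_ce9a4f_an.NoEigenvalue

variable {d : ℕ}

lemma isConnected_halfSpace : IsConnected (halfSpace d) := by
  have hconv : Convex ℝ (halfSpace d) := by
    have h1 : IsLinearMap ℝ (lastCoord : E (d + 1) → ℝ) := by
      constructor
      · intro x y
        simp [lastCoord]
      · intro c x
        simp [lastCoord]
    exact convex_halfSpace_gt h1 0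
  refine ⟨⟨join 0 1, ?_⟩, hconv.isPreconnected⟩
  show 0 < lastCoord (join (0 : E d) 1)
  simp

lemma isConnected_epi {f : E d → ℝ} (hf : Continuous f) : IsConnected (epi f) := by
  have h : epi f = (fun x : E (d + 1) => join (headCoords x) (lastCoord x + f (headCoords x))) '' halfSpace d := by
    ext x
    constructor
    · intro hx
      refine ⟨join (headCoords x) (lastCoord x - f (headCoords x)), ?_, ?_⟩
      · show 0 < lastCoord (join (headCoords x) (lastCoord x - f (headCoords x)))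
        rw [last_join]
        have : f (headCoords x) < lastCoord x := hx
        linarith
      · simp
    · rintro ⟨y, hy, rfl⟩
      show f (headCoords (join (headCoords y) (lastCoord y + f (headCoords y)))) < lastCoord (join (headCoords y) (lastCoord y + f (headCoords y)))
      rw [init_join, last_join]
      have : 0 < lastCoord y := hy
      linarith
  rw [h]
  apply isConnected_halfSpace.image
  apply Continuous.continuousOn
  have h1 : Continuous (fun x : E (d + 1) => (headCoords x, lastCoord x + f (headCoords x))) :=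
    continuous_init.prodMk (continuous_last.add (hf.comp continuous_init))
  exact continuous_join.comp h1

lemma norm_sq_split (x : E (d + 1)) : ‖x‖ ^ 2 = ‖headCoords x‖ ^ 2 + lastCoord x ^ 2 := by
  have h := dist_join_sq (headCoords x) 0 (lastCoord x) 0
  have h0 : join (0 : E d) 0 = (0 : E (d + 1)) := by
    have := (splitL d).symm.map_zero
    simpa using this
  rw [h0, join_init_last, dist_zero_right, dist_zero_right, sub_zero] at h
  exact h

lemma deformed_epi {f : E d → ℝ} {L : ℝ≥0} {h : ℝ} (hf : LipschitzWith L f)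
    (hf0 : ∀ y, 1 ≤ ‖y‖ → f y = 0) (hfh : ∀ y, |f y| ≤ h) :
    IsLocallyDeformedHalfSpace (epi f) := by
  have hh0 : 0 ≤ h := (abs_nonneg _).trans (hfh 0)
  refine ⟨isOpen_epi hf.continuous, isConnected_epi hf.continuous, ?_, ?_⟩
  · intro x _
    exact ⟨LinearIsometryEquiv.refl ℝ _, f, L, 1, one_pos, hf, fun y _ => Iff.rfl⟩
  · refine ⟨0, 2 + h, ?_⟩
    ext x
    simp only [mem_diff, Metric.mem_ball, dist_zero_right, not_lt]
    apply and_congr_left
    intro hx
    show f (headCoords x) < lastCoord x ↔ 0 < lastCoord x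
    by_cases h1 : 1 ≤ ‖headCoords x‖
    · rw [hf0 _ h1]
    · rw [not_le] at h1
      have h2 := norm_sq_split x
      have h3 : (2 + h) ^ 2 ≤ ‖x‖ ^ 2 := pow_le_pow_left₀ (by linarith) hx 2
      have h4 : h ^ 2 < lastCoord x ^ 2 := by
        nlinarith [norm_nonneg (headCoords x)]
      have h5 : h < |lastCoord x| := by
        have := sq_lt_sq.mp h4
        rwa [abs_of_nonneg hh0] at this
      have h6 := abs_le.mp (hfh (headCoords x))
      constructor
      · intro h7
        rcases lt_abs.mp h5 with h8 | h8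
        · linarith
        · linarith
      · intro h7
        rw [abs_of_pos h7] at h5
        linarith

lemma exists_small {β γ C : ℝ} (d : ℕ) (hβγ : β < γ) :
    ∃ δ : ℝ, 0 < δ ∧ β * (1 + δ * C) ^ d ≤ γ - 3 / (4 * (1 : ℝ) ^ 2) * (2 * δ) := by
  have hc : Continuous (fun δ : ℝ => γ - 3 / (4 * (1 : ℝ) ^ 2) * (2 * δ) - β * (1 + δ * C) ^ d) := by
    fun_prop
  have h0 : 0 < (fun δ : ℝ => γ - 3 / (4 * (1 : ℝ) ^ 2) * (2 * δ) - β * (1 + δ * C) ^ d) 0 := by
    simp only [mul_zero, zero_mul, add_zero, one_pow, mul_one, sub_zero]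
    linarith
  have h1 : ∀ᶠ δ in 𝓝 (0 : ℝ), 0 <
      (fun δ : ℝ => γ - 3 / (4 * (1 : ℝ) ^ 2) * (2 * δ) - β * (1 + δ * C) ^ d) δ :=
    hc.continuousAt.eventually_const_lt h0
  have h2 : ∀ᶠ δ in 𝓝[>] (0 : ℝ), 0 <
      (fun δ : ℝ => γ - 3 / (4 * (1 : ℝ) ^ 2) * (2 * δ) - β * (1 + δ * C) ^ d) δ :=
    h1.filter_mono nhdsWithin_le_nhds
  obtain ⟨δ, hδ1, hδ2⟩ := (h2.and self_mem_nhdsWithin).exists
  refine ⟨δ, hδ2, ?_⟩
  simp only at hδ1
  linarith

/-- In every dimension `d + 1 ≥ 4` and for every `α < 0` there is a locally deformed half-space,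
different from the half-space and even with smooth boundary (the epigraph of a compactly supported
smooth function `f`), for which the Robin Laplacian has no spectrum below `-α²`. -/
theorem result (d : ℕ) (hd : 3 ≤ d) (α : ℝ) (hα : α < 0) :
    ∃ f : EuclideanSpace ℝ (Fin d) → ℝ, ContDiff ℝ ∞ f ∧ HasCompactSupport f ∧
      IsLocallyDeformedHalfSpace (epi f) ∧ epi f ≠ halfSpace d ∧
      ∀ t : ℝ, t < -α ^ 2 → (t : ℂ) ∉ robinSpectrum α (epi f) := by
  -- a smooth bump
  let ψ : ContDiffBump (0 : E d) := ⟨1 / 2, 1, by norm_num, by norm_num⟩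
  have hψs : ContDiff ℝ ∞ (ψ : E d → ℝ) := ψ.contDiff
  have hψc : HasCompactSupport (ψ : E d → ℝ) := ψ.hasCompactSupport
  obtain ⟨C, hC⟩ := hψs.lipschitzWith_of_hasCompactSupport hψc (by simp)
  set β : ℝ := -α with hβ
  have hβ0 : 0 < β := by linarith
  set γ : ℝ := Real.sqrt (β ^ 2 + 3 / (4 * (1 : ℝ) ^ 2)) with hγdef
  have hγ : γ ^ 2 = β ^ 2 + 3 / (4 * (1 : ℝ) ^ 2) := Real.sq_sqrt (by positivity)
  have hβγ : β < γ := by
    apply Real.lt_sqrt_of_sq_lt
    norm_num
  obtain ⟨δ, hδ, hδκ⟩ := exists_small (C := (C : ℝ)) d hβγ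
  let f : E d → ℝ := fun y => -(δ * ψ y)
  have hfs : ContDiff ℝ ∞ f := (contDiff_const.mul hψs).neg
  have hfc : HasCompactSupport f := by
    have h1 : HasCompactSupport (fun y => δ * ψ y) := hψc.mul_left
    exact h1.neg
  have hf0 : ∀ y, 1 ≤ ‖y‖ → f y = 0 := by
    intro y hy
    have : ψ y = 0 := by
      apply ψ.zero_of_le_dist
      rw [dist_zero_right]
      exact hy
    show -(δ * ψ y) = 0
    rw [this]
    ring
  have hfh : ∀ y, |f y| ≤ δ := by
    intro y
    show |-(δ * ψ y)| ≤ δ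
    rw [abs_neg, abs_mul, abs_of_pos hδ, abs_of_nonneg ψ.nonneg]
    calc δ * ψ y ≤ δ * 1 := mul_le_mul_of_nonneg_left ψ.le_one hδ.le
      _ = δ := mul_one δ
  set δ' : ℝ≥0 := ⟨δ, hδ.le⟩ with hδ'
  have hfL : LipschitzWith (δ' * C) f := by
    apply LipschitzWith.of_dist_le_mul
    intro x y
    have h1 := hC.dist_le_mul x y
    show dist (-(δ * ψ x)) (-(δ * ψ y)) ≤ ((δ' * C : ℝ≥0) : ℝ) * dist x y
    rw [dist_neg_neg, Real.dist_eq, ← mul_sub, abs_mul, abs_of_pos hδ, ← Real.dist_eq]
    push_cast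
    calc δ * dist (ψ x) (ψ y) ≤ δ * (C * dist x y) := mul_le_mul_of_nonneg_left h1 hδ.le
      _ = δ * C * dist x y := by ring
  have hK : 1 + (δ' * C) ^ 2 ≤ (1 + δ' * C) ^ 2 := by
    have : (1 + δ' * C) ^ 2 = 1 + (δ' * C) ^ 2 + 2 * (δ' * C) := by ring
    rw [this]
    exact le_self_add
  have hκ : β * ((1 + δ' * C : ℝ≥0) : ℝ) ^ d ≤ γ - 3 / (4 * (1 : ℝ) ^ 2) * (2 * δ) := by
    push_cast
    exact hδκ
  refine ⟨f, hfs, hfc, deformed_epi hfL hf0 hfh, ?_, ?_⟩
  · intro heq
    have h1 : join (0 : E d) 0 ∈ epi f := by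
      show f (headCoords (join (0 : E d) 0)) < lastCoord (join (0 : E d) 0)
      rw [init_join, last_join]
      have h2 : ψ (0 : E d) = 1 := by
        apply ψ.one_of_mem_closedBall
        simp [ψ]
      show -(δ * ψ (0 : E d)) < 0
      rw [h2]
      linarith
    rw [heq] at h1
    have h3 : 0 < lastCoord (join (0 : E d) 0) := h1
    rw [last_join] at h3
    exact lt_irrefl _ h3
  · intro t ht
    have hαβ : α = -β := by rw [hβ]; ring
    have ht' : t < -β ^ 2 := by
      rw [hαβ] at ht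
      nlinarith
    rw [hαβ]
    refine spectrum_of_coercive (Ω := epi f) (β := β) ?_ ?_ ht'
    · intro φ hφ
      rw [memLp_two_iff_integrable_sq_norm hφ.1.continuous.aestronglyMeasurable]
      exact integrable_surf hfL hK hf0 (hφ.1.continuous.norm.pow 2)
        (hφ.2.comp_left (g := fun z => ‖z‖ ^ 2) (by simp))
    · intro m hm
      exact coercive_test hd one_pos hfL hK hf0 hfh hβ0 hγ hκ hm

end Pool.Agent.Results.MP_ce9a4f_an.NoEigenvalue
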